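import Pool.Agent.Y363.EP.B1

/-! Barriers during one stage: the estimates at the level `n + 2 + j` (after Y504/NF/B2, B3). -/

open Set Filter Topology MeasureTheory

set_option autoImplicit false

namespace Pool.Agent.Y363.EP

open Pool.Agent.Y8.EP
open Pool.Agent.Y5.E (At Aw Ut Uw loc)
open Pool.Agent.Y5.F (vfk Yk Wk bar)
open Pool.Agent.Y8.EP.Gd

variable {κ lam N : ℝ} {L C ℓ : ℕ → ℝ} {B : ℕ → ℕ → ℝ} {T : ℝ} {x w f : ℕ → ℝ → ℝ}
variable {n : ℕ} {σ : ℕ → ℝ} {t1 t : ℝ}

lemma tiny (q : Pe κ lam N L C ℓ B) (c : ℝ) (hc0 : 0 ≤ c) (hc : c ≤ 10 ^ 45) {α : ℝ}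
    (h : (2 : ℝ) / 10 ^ 7 + α ≤ -(1 / 10 ^ 6)) :
    c * N * Real.exp (α * lam) ≤ 1 / 10 ^ 20 := by
  have h1 := q.EE_small 2 (α := α) (by push_cast; exact h)
  have h2 := q.NE
  have h3 := q.N_one
  have h6 := q.EE_big
  have h7 := EE_pos lam
  refine le_trans ?_ h1
  have h8 : c ≤ EE lam := hc.trans h6
  calc c * N * Real.exp (α * lam)
      ≤ EE lam * EE lam * Real.exp (α * lam) := by gcongr
    _ = _ := by ring

lemma dd_pos (lam : ℝ) : 0 < dd lam := Real.exp_pos _

lemma dd_le (q : Pe κ lam N L C ℓ B) : dd lam ≤ 1 / 10 ^ 20 := q.exp_small (by norm_num)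

lemma ee (a b lam : ℝ) : Real.exp (a * lam) * Real.exp (b * lam) = Real.exp ((a + b) * lam) := by
  rw [← Real.exp_add]; congr 1; ring

lemma bb_pos (lam : ℝ) (C : ℕ → ℝ) (x : ℕ → ℝ → ℝ) (n j : ℕ) (t : ℝ) :
    0 < bb lam C x n j t := by
  rw [bb]; positivity

lemma bb_succ (lam : ℝ) (C : ℕ → ℝ) (x : ℕ → ℝ → ℝ) (n i : ℕ) (t : ℝ) :
    bb lam C x n i t = Real.exp (558 / 10000 * lam) * bb lam C x n (i + 1) t := by
  have e : Real.exp (-(Pp (i + 1)) * lam) =
      Real.exp (558 / 10000 * lam) * Real.exp (-(Pp (i + 1 + 1)) * lam) := by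
    rw [← Real.exp_add]
    congr 1
    rw [Pp, Pp]
    push_cast
    ring
  rw [bb, bb, e]
  ring

lemma th_nonneg (q : Pe κ lam N L C ℓ B) (t : ℝ) : 0 ≤ th lam C x n t := by
  have := q.lamp
  rw [th]; positivity

lemma th_hi (q : Pe κ lam N L C ℓ B) (p : PF κ lam L C T x w n t) :
    th lam C x n t ≤ 558 / 10000 * lam := by
  have h1 := p.zhi
  have h2 := q.C_small n
  have h3 := q.lamp
  have h4 : max (zz C x n t - 8952 / 10000) 0 ≤ 10481 / 100000 := by
    apply max_le
    · linarith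
    · norm_num
  have h5 : 0 ≤ max (zz C x n t - 8952 / 10000) 0 := le_max_right _ _
  rw [th]
  calc 1000 / 197 * lam * max (zz C x n t - 8952 / 10000) 0 ^ 2
      ≤ 1000 / 197 * lam * (10481 / 100000) ^ 2 := by gcongr
    _ ≤ _ := by nlinarith

lemma bb_lo (q : Pe κ lam N L C ℓ B) (j : ℕ) (t : ℝ) :
    Real.exp (-(Pp (j + 1)) * lam) ≤ bb lam C x n j t := by
  have h := th_nonneg (x := x) (n := n) q t
  have h2 : 1 ≤ Real.exp (th lam C x n t) := Real.one_le_exp h
  rw [bb]
  have := Real.exp_pos (-(Pp (j + 1)) * lam)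
  nlinarith

lemma bb_hi (q : Pe κ lam N L C ℓ B) (p : PF κ lam L C T x w n t) (j : ℕ) :
    bb lam C x n j t ≤ Real.exp (-(Pp j) * lam) := by
  have h := th_hi q p
  rw [bb, ← Real.exp_add]
  apply Real.exp_le_exp.2
  rw [Pp, Pp]
  push_cast
  linarith

lemma bb_tiny (q : Pe κ lam N L C ℓ B) (p : PF κ lam L C T x w n t) (j : ℕ) :
    bb lam C x n j t ≤ 1 / 10 ^ 20 := by
  refine (bb_hi q p j).trans ?_
  apply q.exp_small
  rw [Pp]
  have : (0 : ℝ) ≤ j := Nat.cast_nonneg j
  linarith

/-- hypotheses at the level `j` -/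
structure Hj (κ lam : ℝ) (C : ℕ → ℝ) (x w : ℕ → ℝ → ℝ) (n j : ℕ) (t : ℝ) : Prop where
  w1 : w (n + 1) t ≤ dd lam
  y : ∀ i < j, √(Yk κ x w (n + 2 + i) t) ≤ bb lam C x n i t
  w : ∀ i < j, w (n + 2 + i) t ≤ dd lam * bb lam C x n i t

lemma Hj.mono {j j' : ℕ} (H : Hj κ lam C x w n j t) (h : j' ≤ j) : Hj κ lam C x w n j' t :=
  ⟨H.w1, fun i hi => H.y i (by omega), fun i hi => H.w i (by omega)⟩

section lev

variable (g : Gd κ lam N L C ℓ B T x w f) (p : PF κ lam L C T x w n t)
include g p

lemma wn1 : |x (n + 1) t| ≤ 1 := (g.x_le p.hI (n + 1)).trans p.Y1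

lemma z1_le {j : ℕ} (H : Hj κ lam C x w n j t) : |x (n + 1) t| + w (n + 1) t ≤ 11 / 10 := by
  have h1 := wn1 g p
  have h2 := H.w1
  have h3 := dd_le g.q
  linarith

lemma z0_le : |x n t| + w n t ≤ 151 / 100 := by
  have h1 := p.Xhi
  have h2 := p.wn
  have h3 := dd_le g.q
  linarith

lemma zz_le {i : ℕ} {j : ℕ} (H : Hj κ lam C x w n j t) (hi : i < j) :
    |x (n + 2 + i) t| + w (n + 2 + i) t ≤ 2 * bb lam C x n i t := by
  have h1 := (g.x_le p.hI (n + 2 + i)).trans (H.y i hi)
  have h2 := H.w i hi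
  have h3 := dd_le g.q
  have hb := bb_pos lam C x n i t
  have h4 : dd lam * bb lam C x n i t ≤ 1 * bb lam C x n i t := by
    gcongr
    linarith
  linarith

lemma A1_le : At lam x w (n + 1) t ≤ 16 / 10 := by
  have h1 := p.low.A
  have q := g.q
  have hs := q.sq_lam
  have hs0 := q.sq_lam0
  have hz := z0_le g p
  have hA0 := g.A_nonneg p.hI n
  rw [A_succ]
  have h2 : (√lam)⁻¹ * At lam x w n t ≤ 1 / 10 ^ 15 * (1501 / 1000) := by gcongr
  linarith

lemma Aj_le (j : ℕ) (H : Hj κ lam C x w n j t) : At lam x w (n + 2 + j) t ≤ 2 := by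
  have q := g.q
  have hs := q.sq_lam
  have hs0 := q.sq_lam0
  induction j with
  | zero =>
    have h1 := A1_le g p
    have hz := z1_le g p H
    have hA0 := g.A_nonneg p.hI (n + 1)
    rw [add_zero, show n + 2 = n + 1 + 1 by ring, A_succ]
    have h2 : (√lam)⁻¹ * At lam x w (n + 1) t ≤ 1 / 10 ^ 15 * (16 / 10) := by gcongr
    linarith
  | succ j ih =>
    have h1 := ih (H.mono (Nat.le_succ j))
    have h2 := zz_le g p H (Nat.lt_succ_self j)
    have h3 := bb_tiny q p j
    have hA0 := g.A_nonneg p.hI (n + 2 + j)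
    rw [show n + 2 + (j + 1) = n + 2 + j + 1 by ring, A_succ]
    have h4 : (√lam)⁻¹ * At lam x w (n + 2 + j) t ≤ 1 / 10 ^ 15 * 2 := by gcongr
    linarith

omit p in
lemma Lprev (j : ℕ) : L (n + 2 + j) = lam * L (n + 1 + j) := by
  rw [show n + 2 + j = n + 1 + j + 1 by ring, g.q.L_succ]

omit p in
lemma Ldiv (m : ℕ) : L m ≤ 1 / 10 ^ 30 * L (m + 1) := by
  have q := g.q
  have h1 := q.lam_big
  have h2 := q.Lp m
  rw [q.L_succ]
  nlinarith

omit p in
lemma Ldivl (m : ℕ) : L m / lam ≤ L m := by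
  have q := g.q
  have h1 := q.lam1
  have h2 := q.Lp m
  rw [div_le_iff₀ q.lamp]
  nlinarith

lemma U2_le : Ut L x (n + 2) t ≤ L (n + 1) * zz C x n t + 4 / 10 ^ 30 * L (n + 1) := by
  have q := g.q
  have hL := q.Lp n
  have hL1 := q.Lp (n + 1)
  rw [show n + 2 = n + 1 + 1 by ring, U_succ, U_succ]
  have h1 := p.low.U
  have h2 : L (n + 1) * |x (n + 1) t| ≤ L (n + 1) * zz C x n t := by
    gcongr
    exact p.x1
  have h3 : L n * |x n t| ≤ L n * (3 / 2) := by
    gcongr
    exact p.Xhi
  have h4 := Ldiv g n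
  have h5 := Ldivl g n
  linarith

lemma zle : zz C x n t ≤ 101 / 100 := by
  have := p.zhi
  have := g.q.C_small n
  linarith

lemma Uj_le (j : ℕ) (H : Hj κ lam C x w n j t) : Ut L x (n + 2 + j) t ≤ 2 * L (n + 1 + j) := by
  have q := g.q
  induction j with
  | zero =>
    have h1 := U2_le g p
    have h2 := zle g p
    have hL1 := q.Lp (n + 1)
    rw [add_zero, add_zero]
    have h3 : L (n + 1) * zz C x n t ≤ L (n + 1) * (101 / 100) := by gcongr
    linarith
  | succ j ih =>
    have h1 := ih (H.mono (Nat.le_succ j))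
    have h2 := (g.x_le p.hI (n + 2 + j)).trans (H.y j (Nat.lt_succ_self j))
    have h3 := bb_tiny q p j
    have hL := q.Lp (n + 2 + j)
    rw [show n + 2 + (j + 1) = n + 2 + j + 1 by ring, U_succ]
    have h4 := Ldiv g (n + 1 + j)
    rw [show n + 1 + j + 1 = n + 2 + j by ring] at h4
    have h5 : L (n + 2 + j) * |x (n + 2 + j) t| ≤ L (n + 2 + j) * (1 / 10 ^ 20) := by
      gcongr
      linarith
    rw [show n + 1 + (j + 1) = n + 2 + j by ring]
    linarith

lemma Uj1_le (j : ℕ) (H : Hj κ lam C x w n (j + 1) t) :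
    Ut L x (n + 2 + (j + 1)) t ≤ 1 / 100 * L (n + 1 + (j + 1)) := by
  have q := g.q
  have h1 := Uj_le g p j (H.mono (Nat.le_succ j))
  have h2 := (g.x_le p.hI (n + 2 + j)).trans (H.y j (Nat.lt_succ_self j))
  have h3 := bb_tiny q p j
  have hL := q.Lp (n + 2 + j)
  rw [show n + 2 + (j + 1) = n + 2 + j + 1 by ring, U_succ]
  have h4 := Ldiv g (n + 1 + j)
  rw [show n + 1 + j + 1 = n + 2 + j by ring] at h4
  have h5 : L (n + 2 + j) * |x (n + 2 + j) t| ≤ L (n + 2 + j) * (1 / 10 ^ 20) := by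
    gcongr
    linarith
  rw [show n + 1 + (j + 1) = n + 2 + j by ring]
  linarith

lemma Wj_le (j : ℕ) (H : Hj κ lam C x w n j t) :
    Uw L w (n + 2 + j) t ≤ 2 * dd lam * L (n + 1 + j) := by
  have q := g.q
  have hd := dd_pos lam
  induction j with
  | zero =>
    have h1 := p.low.Uw
    have h2 := p.wn
    have h3 := H.w1
    have hL := q.Lp n
    have hL1 := q.Lp (n + 1)
    rw [add_zero, add_zero, show n + 2 = n + 1 + 1 by ring, Uw_succ, Uw_succ]
    have h4 : L n * w n t ≤ L n * dd lam := by gcongr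
    have h5 : L (n + 1) * w (n + 1) t ≤ L (n + 1) * dd lam := by gcongr
    have h6 := Ldiv g n
    have h7 := Ldivl g n
    have h8 : 2 * dd lam * (L n / lam) ≤ 2 * dd lam * L n := by gcongr
    have h9 : dd lam * L n ≤ dd lam * (1 / 10 ^ 30 * L (n + 1)) := by gcongr
    have h10 : 0 < dd lam * L (n + 1) := by positivity
    linarith
  | succ j ih =>
    have h1 := ih (H.mono (Nat.le_succ j))
    have h2 := H.w j (Nat.lt_succ_self j)
    have h3 := bb_tiny q p j
    have hL := q.Lp (n + 2 + j)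
    have hb := bb_pos lam C x n j t
    rw [show n + 2 + (j + 1) = n + 2 + j + 1 by ring, Uw_succ]
    have h4 := Ldiv g (n + 1 + j)
    rw [show n + 1 + j + 1 = n + 2 + j by ring] at h4
    have h5 : L (n + 2 + j) * w (n + 2 + j) t ≤ L (n + 2 + j) * (dd lam * 1) := by
      gcongr
      refine h2.trans ?_
      gcongr
      linarith
    have h6 : dd lam * L (n + 1 + j) ≤ dd lam * (1 / 10 ^ 30 * L (n + 2 + j)) := by gcongr
    have h10 : 0 < dd lam * L (n + 2 + j) := by positivity
    rw [show n + 1 + (j + 1) = n + 2 + j by ring]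
    linarith

lemma NW_le (j : ℕ) (H : Hj κ lam C x w n j t) :
    N * Uw L w (n + 2 + j) t ≤ 1 / 10 ^ 20 * L (n + 1 + j) := by
  have q := g.q
  have h1 := Wj_le g p j H
  have h2 := tiny q 2 (by norm_num) (by norm_num) (α := -(1 / 2)) (by norm_num)
  have hN := q.N_one
  have hL := q.Lp (n + 1 + j)
  calc N * Uw L w (n + 2 + j) t ≤ N * (2 * dd lam * L (n + 1 + j)) := by gcongr
    _ = (2 * N * Real.exp (-(1 / 2) * lam)) * L (n + 1 + j) := by rw [dd]; ring
    _ ≤ _ := by gcongr

/-- the preceding group -/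
lemma zprev {j : ℕ} (H : Hj κ lam C x w n j t) :
    |x (n + 1 + j) t| + w (n + 1 + j) t ≤
      2 * Real.exp (598 / 10000 * lam) * bb lam C x n j t := by
  have q := g.q
  have hl := q.lamp
  rcases j with _ | i
  · have h1 := z1_le g p H
    have h2 := bb_lo (x := x) (n := n) q 0 t
    have h3 : Real.exp (598 / 10000 * lam) * Real.exp (-(Pp (0 + 1)) * lam) = 1 := by
      rw [← Real.exp_add, Real.exp_eq_one_iff, Pp]
      push_cast
      ring
    have h4 : 1 ≤ Real.exp (598 / 10000 * lam) * bb lam C x n 0 t := by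
      rw [← h3]
      gcongr
    rw [add_zero]
    linarith
  · have h1 := zz_le g p H (Nat.lt_succ_self i)
    have hb := bb_pos lam C x n (i + 1) t
    rw [show n + 1 + (i + 1) = n + 2 + i by ring]
    rw [bb_succ] at h1
    have h2 : Real.exp (558 / 10000 * lam) ≤ Real.exp (598 / 10000 * lam) :=
      Real.exp_le_exp.2 (by linarith)
    have h3 : Real.exp (558 / 10000 * lam) * bb lam C x n (i + 1) t ≤
      Real.exp (598 / 10000 * lam) * bb lam C x n (i + 1) t := by gcongr
    linarith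

/-- sources -/
lemma src_le {j : ℕ} (H : Hj κ lam C x w n j t) :
    src L C x (n + 2 + j) t ≤ 1 / 10 ^ 20 * L (n + 1 + j) * bb lam C x n j t := by
  have q := g.q
  have hl := q.lamp
  have hL := q.Lp (n + 1 + j)
  have hb := bb_pos lam C x n j t
  rw [src, if_neg (by omega : ¬ n + 2 + j = 0), show n + 2 + j - 1 = n + 1 + j by omega]
  have hC := q.C_hi (n + 1 + j)
  have hCp := q.Cp (n + 1 + j)
  rcases j with _ | i
  · have h1 : x (n + 1) t ^ 2 ≤ 1 := by
      rw [← sq_abs]
      exact pow_le_one₀ (abs_nonneg _) (wn1 g p)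
    have h2 := bb_lo (x := x) (n := n) q 0 t
    have h3 : Real.exp (-(599 / 10000) * lam) =
        Real.exp (-(1 / 10000) * lam) * Real.exp (-(Pp (0 + 1)) * lam) := by
      rw [← Real.exp_add]
      congr 1
      rw [Pp]
      push_cast
      ring
    have h4 : Real.exp (-(1 / 10000) * lam) ≤ 1 / 10 ^ 20 := q.exp_small (by norm_num)
    rw [add_zero] at *
    calc L (n + 1) * C (n + 1) * x (n + 1) t ^ 2
        ≤ L (n + 1) * Real.exp (-(599 / 10000) * lam) * 1 := by gcongr
      _ = Real.exp (-(1 / 10000) * lam) * L (n + 1) * Real.exp (-(Pp (0 + 1)) * lam) := by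
          rw [h3]; ring
      _ ≤ _ := by gcongr
  · have e0 : n + 1 + (i + 1) = n + 2 + i := by ring
    rw [e0] at hL hC hCp ⊢
    have hx := (g.x_le p.hI (n + 2 + i)).trans (H.y i (Nat.lt_succ_self i))
    have hbi := bb_pos lam C x n i t
    have hbt := bb_tiny q p i
    have h1 : x (n + 2 + i) t ^ 2 ≤ bb lam C x n i t * bb lam C x n i t := by
      rw [← sq_abs, sq]
      gcongr
    have h4 : Real.exp (-(41 / 10000) * lam) ≤ 1 / 10 ^ 20 := q.exp_small (by norm_num)
    have h5 := ee (-(599 / 10000)) (558 / 10000) lam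
    have h6 : (-(599 / 10000) + 558 / 10000 : ℝ) = -(41 / 10000) := by norm_num
    rw [h6] at h5
    calc L (n + 2 + i) * C (n + 2 + i) * x (n + 2 + i) t ^ 2
        ≤ L (n + 2 + i) * Real.exp (-(599 / 10000) * lam) *
          (1 * bb lam C x n i t) := by
          gcongr
          refine h1.trans ?_
          gcongr
          linarith
      _ = (Real.exp (-(599 / 10000) * lam) * Real.exp (558 / 10000 * lam)) * L (n + 2 + i) *
          bb lam C x n (i + 1) t := by rw [bb_succ lam C x n i]; ring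
      _ = Real.exp (-(41 / 10000) * lam) * L (n + 2 + i) * bb lam C x n (i + 1) t := by rw [h5]
      _ ≤ _ := by gcongr

/-- local terms -/
lemma loc_le {j : ℕ} (H : Hj κ lam C x w n j t) :
    N * loc L x w (n + 2 + j) t ≤ 1 / 10 ^ 20 * L (n + 1 + j) * bb lam C x n j t := by
  have q := g.q
  have hl := q.lamp
  have hL := q.Lp (n + 1 + j)
  have hb := bb_pos lam C x n j t
  have hN := q.N_one
  have hd := dd_pos lam
  have hdt := dd_le q
  have h0 := z0_le g p
  have h1 := z1_le g p H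
  have hw0 := g.sy.w0 n t p.hI
  have hw10 := g.sy.w0 (n + 1) t p.hI
  have hwn := p.wn
  have hw1 := H.w1
  rw [loc, if_neg (by omega : ¬ n + 2 + j = 0), show n + 2 + j - 1 = n + 1 + j by omega,
    show n + 2 + j - 2 = n + j by omega]
  rcases j with _ | _ | i
  · have h2 := bb_lo (x := x) (n := n) q 0 t
    have h3 : dd lam = Real.exp (-(4402 / 10000) * lam) * Real.exp (-(Pp (0 + 1)) * lam) := by
      rw [← Real.exp_add, dd]
      congr 1
      rw [Pp]
      push_cast
      ring
    have h4 := tiny q 6 (by norm_num) (by norm_num) (α := -(4402 / 10000)) (by norm_num)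
    simp only [add_zero] at *
    calc N * (L (n + 1) * ((|x (n + 1) t| + w (n + 1) t + |x n t| + w n t) *
          (w (n + 1) t + w n t)))
        ≤ N * (L (n + 1) * (3 * (2 * dd lam))) := by
          gcongr
          · linarith
          · linarith
      _ = (6 * N * Real.exp (-(4402 / 10000) * lam)) * L (n + 1) *
          Real.exp (-(Pp (0 + 1)) * lam) := by nth_rewrite 1 [h3]; ring
      _ ≤ _ := by gcongr
  · have h2 := bb_lo (x := x) (n := n) q 1 t
    have h3 : dd lam = Real.exp (-(3844 / 10000) * lam) * Real.exp (-(Pp (1 + 1)) * lam) := by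
      rw [← Real.exp_add, dd]
      congr 1
      rw [Pp]
      push_cast
      ring
    have h4 := tiny q 6 (by norm_num) (by norm_num) (α := -(3844 / 10000)) (by norm_num)
    have h5 := zz_le g p H (show 0 < 0 + 1 by omega)
    have h6 := bb_tiny q p 0
    have h7 := H.w 0 (by omega)
    have h8 : dd lam * bb lam C x n 0 t ≤ dd lam * 1 := by
      gcongr
      linarith
    have hw20 := g.sy.w0 (n + 2) t p.hI
    rw [add_zero] at h5 h7
    rw [show n + 1 + (0 + 1) = n + 2 by ring, show n + (0 + 1) = n + 1 by ring] at *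
    rw [zero_add] at *
    calc N * (L (n + 2) * ((|x (n + 2) t| + w (n + 2) t + |x (n + 1) t| + w (n + 1) t) *
          (w (n + 2) t + w (n + 1) t)))
        ≤ N * (L (n + 2) * (3 * (2 * dd lam))) := by
          gcongr
          · linarith
          · linarith
      _ = (6 * N * Real.exp (-(3844 / 10000) * lam)) * L (n + 2) *
          Real.exp (-(Pp (1 + 1)) * lam) := by nth_rewrite 1 [h3]; ring
      _ ≤ _ := by gcongr
  · have h5 := zz_le g p H (show i < i + 1 + 1 by omega)
    have h6 := zz_le g p H (show i + 1 < i + 1 + 1 by omega)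
    have h7 := H.w i (by omega)
    have h8 := H.w (i + 1) (by omega)
    have hbi := bb_pos lam C x n i t
    have hbt := bb_tiny q p i
    have hbi1 := bb_pos lam C x n (i + 1) t
    have hmono : bb lam C x n (i + 1) t ≤ bb lam C x n i t := by
      rw [bb_succ lam C x n i]
      have : 1 ≤ Real.exp (558 / 10000 * lam) := Real.one_le_exp (by positivity)
      nlinarith
    have hw20 := g.sy.w0 (n + 2 + i) t p.hI
    have hw21 := g.sy.w0 (n + 2 + (i + 1)) t p.hI
    have e1 : n + 1 + (i + 1 + 1) = n + 2 + (i + 1) := by ring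
    have e2 : n + (i + 1 + 1) = n + 2 + i := by ring
    rw [e1] at hL
    rw [e1, e2]
    have h9 : dd lam * bb lam C x n (i + 1) t ≤ dd lam * bb lam C x n i t := by gcongr
    have h3 : dd lam * (Real.exp (558 / 10000 * lam) * Real.exp (558 / 10000 * lam)) =
        Real.exp (-(3884 / 10000) * lam) := by
      rw [← Real.exp_add, dd, ← Real.exp_add]
      congr 1
      ring
    have h4 := tiny q 8 (by norm_num) (by norm_num) (α := -(3884 / 10000)) (by norm_num)
    calc N * (L (n + 2 + (i + 1)) * ((|x (n + 2 + (i + 1)) t| + w (n + 2 + (i + 1)) t +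
          |x (n + 2 + i) t| + w (n + 2 + i) t) * (w (n + 2 + (i + 1)) t + w (n + 2 + i) t)))
        ≤ N * (L (n + 2 + (i + 1)) * ((4 * 1) * (2 * (dd lam * bb lam C x n i t)))) := by
          gcongr
          · linarith
          · linarith
      _ = (8 * N * (dd lam * (Real.exp (558 / 10000 * lam) * Real.exp (558 / 10000 * lam)))) *
          L (n + 2 + (i + 1)) * bb lam C x n (i + 1 + 1) t := by
          rw [bb_succ lam C x n i, bb_succ lam C x n (i + 1)]; ring
      _ = (8 * N * Real.exp (-(3884 / 10000) * lam)) *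
          L (n + 2 + (i + 1)) * bb lam C x n (i + 1 + 1) t := by rw [h3]
      _ ≤ _ := by gcongr

/-- additional term -/
lemma addt_le {j : ℕ} (H : Hj κ lam C x w n j t) :
    addt lam N L x w (n + 2 + j) t ≤ 1 / 10 ^ 20 * L (n + 1 + j) * bb lam C x n j t ^ 2 := by
  have q := g.q
  have hl := q.lamp
  have hL := q.Lp (n + 1 + j)
  have hb := bb_pos lam C x n j t
  have hz := zprev g p H
  have hA := Aj_le g p j H
  have hA0 := g.A_nonneg p.hI (n + 2 + j)
  have hw0 := g.sy.w0 (n + 1 + j) t p.hI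
  have hN := q.N_one
  rw [addt, if_neg (by omega : ¬ n + 2 + j = 0), show n + 2 + j - 1 = n + 1 + j by omega]
  have h1 := tiny q 16 (by norm_num) (by norm_num) (α := -(8804 / 10000)) (by norm_num)
  have e2 : N / Real.exp lam = N * Real.exp (-lam) := by rw [Real.exp_neg, div_eq_mul_inv]
  have e3 : Real.exp (-lam) * Real.exp (598 / 10000 * lam) ^ 2 =
      Real.exp (-(8804 / 10000) * lam) := by
    rw [← Real.exp_nat_mul, ← Real.exp_add]
    congr 1
    push_cast
    ring
  rw [e2]
  calc N * Real.exp (-lam) * (L (n + 1 + j) * At lam x w (n + 2 + j) t ^ 2 *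
        (|x (n + 1 + j) t| + w (n + 1 + j) t) ^ 2)
      ≤ N * Real.exp (-lam) * (L (n + 1 + j) * 2 ^ 2 *
        (2 * Real.exp (598 / 10000 * lam) * bb lam C x n j t) ^ 2) := by gcongr
    _ = (16 * N * (Real.exp (-lam) * Real.exp (598 / 10000 * lam) ^ 2)) *
        L (n + 1 + j) * bb lam C x n j t ^ 2 := by ring
    _ = (16 * N * Real.exp (-(8804 / 10000) * lam)) *
        L (n + 1 + j) * bb lam C x n j t ^ 2 := by rw [e3]
    _ ≤ _ := by gcongr

omit p in
lemma edd : Real.exp lam * dd lam = Real.exp (1 / 2 * lam) := by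
  rw [dd, ← Real.exp_add]; congr 1; ring

/-- the force of the other modes -/
lemma wf_le {j : ℕ} (H : Hj κ lam C x w n j t)
    (hY : √(Yk κ x w (n + 2 + j) t) ≤ bb lam C x n j t) :
    wfc κ lam N L x w (n + 2 + j) t ≤
      Real.exp lam * L (n + 2 + j) * (dd lam * bb lam C x n j t) := by
  have q := g.q
  have hl := q.lamp
  have hL := q.Lp (n + 2 + j)
  have hL1 := q.Lp (n + 1 + j)
  have hLm := q.Lmono (show n + 1 + j ≤ n + 2 + j by omega)
  have hb := bb_pos lam C x n j t
  have hN := q.N_one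
  have hz := zprev g p H
  have hA := Aj_le g p j H
  have hA0 := g.A_nonneg p.hI (n + 2 + j)
  have hw0 := g.sy.w0 (n + 1 + j) t p.hI
  have hbj := bb_tiny q p j
  have hexp : 1 ≤ Real.exp (598 / 10000 * lam) := Real.one_le_exp (by positivity)
  rw [wfc, if_neg (by omega : ¬ n + 2 + j = 0), show n + 2 + j - 1 = n + 1 + j by omega]
  have h1 := tiny q 7 (by norm_num) (by norm_num) (α := -(4402 / 10000)) (by norm_num)
  have h2 : 7 * N * Real.exp (598 / 10000 * lam) ≤ Real.exp (1 / 2 * lam) := by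
    have e : Real.exp (598 / 10000 * lam) =
        Real.exp (-(4402 / 10000) * lam) * Real.exp (1 / 2 * lam) := by
      rw [← Real.exp_add]; congr 1; ring
    rw [e]
    calc 7 * N * (Real.exp (-(4402 / 10000) * lam) * Real.exp (1 / 2 * lam))
        = (7 * N * Real.exp (-(4402 / 10000) * lam)) * Real.exp (1 / 2 * lam) := by ring
      _ ≤ 1 * Real.exp (1 / 2 * lam) := by
          gcongr
          linarith
      _ = _ := one_mul _
  have h3 := edd g
  calc N * (L (n + 2 + j) * (At lam x w (n + 2 + j) t + √(Yk κ x w (n + 2 + j) t)) *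
        √(Yk κ x w (n + 2 + j) t) +
        L (n + 1 + j) * At lam x w (n + 2 + j) t * (|x (n + 1 + j) t| + w (n + 1 + j) t))
      ≤ N * (L (n + 2 + j) * (2 + 1) * bb lam C x n j t +
        L (n + 2 + j) * 2 *
          (2 * Real.exp (598 / 10000 * lam) * bb lam C x n j t)) := by
        gcongr
        linarith
    _ = N * L (n + 2 + j) * bb lam C x n j t * (3 + 4 * Real.exp (598 / 10000 * lam)) := by
        ring
    _ ≤ N * L (n + 2 + j) * bb lam C x n j t * (7 * Real.exp (598 / 10000 * lam)) := by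
        gcongr
        linarith
    _ = (7 * N * Real.exp (598 / 10000 * lam)) * (L (n + 2 + j) * bb lam C x n j t) := by ring
    _ ≤ Real.exp (1 / 2 * lam) * (L (n + 2 + j) * bb lam C x n j t) := by gcongr
    _ = _ := by rw [← h3]; ring

/-- the force of the other modes of the group `n + 1` -/
lemma wf1_le :
    wfc κ lam N L x w (n + 1) t ≤ Real.exp lam * L (n + 1) * dd lam := by
  have q := g.q
  have hl := q.lamp
  have hL := q.Lp (n + 1)
  have hLn := q.Lp n
  have hLm := q.Lmono (show n ≤ n + 1 by omega)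
  have hN := q.N_one
  have hA := A1_le g p
  have hA0 := g.A_nonneg p.hI (n + 1)
  have hY := p.Y1
  have hz := z0_le g p
  have hw0 := g.sy.w0 n t p.hI
  have h0 : 0 ≤ |x n t| + w n t := by positivity
  rw [wfc, if_neg (by omega : ¬ n + 1 = 0), show n + 1 - 1 = n by omega]
  have h1 := tiny q 6 (by norm_num) (by norm_num) (α := -(1 / 2)) (by norm_num)
  have h2 : 6 * N ≤ Real.exp (1 / 2 * lam) := by
    have e : Real.exp (-(1 / 2) * lam) * Real.exp (1 / 2 * lam) = 1 := by
      rw [← Real.exp_add, Real.exp_eq_one_iff]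
      ring
    have h3 := Real.exp_pos (1 / 2 * lam)
    calc 6 * N = (6 * N * Real.exp (-(1 / 2) * lam)) *
        Real.exp (1 / 2 * lam) := by
          rw [mul_assoc (6 * N), e]; ring
      _ ≤ 1 * Real.exp (1 / 2 * lam) := by
          gcongr
          linarith
      _ = _ := one_mul _
  have h3 := edd g
  calc N * (L (n + 1) * (At lam x w (n + 1) t + √(Yk κ x w (n + 1) t)) * √(Yk κ x w (n + 1) t) +
        L n * At lam x w (n + 1) t * (|x n t| + w n t))
      ≤ N * (L (n + 1) * (16 / 10 + 1) * 1 + L (n + 1) * (16 / 10) * (151 / 100)) := by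
        gcongr
    _ ≤ (6 * N) * L (n + 1) := by
        have : 0 < N * L (n + 1) := by positivity
        nlinarith
    _ ≤ Real.exp (1 / 2 * lam) * L (n + 1) := by gcongr
    _ = _ := by rw [← h3]; ring

/-- the strain is not large -/
lemma U6_le {j : ℕ} (H : Hj κ lam C x w n j t) :
    Ut L x (n + 2 + j) t ≤ 10 ^ 6 * L (n + 2 + j) := by
  have q := g.q
  have h1 := Uj_le g p j H
  have h2 := q.Lmono (show n + 1 + j ≤ n + 2 + j by omega)
  have h3 := q.Lp (n + 2 + j)
  linarith

/-- the rates -/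
lemma rate_le (j : ℕ) (H : Hj κ lam C x w n j t) :
    10011 / 10000 * Ut L x (n + 2 + j) t + N * Uw L w (n + 2 + j) t
      - 9 / 10 * (L (n + 2 + j) / lam) ≤
    L (n + 1) * (zz C x n t * max (zz C x n t - 8952 / 10000) 0) - 1 / 10 ^ 6 * L (n + 1 + j) := by
  have q := g.q
  have hl := q.lamp
  have hz0 : 0 < zz C x n t := by
    have := p.zlo
    have := q.Cp n
    linarith
  have h1 := NW_le g p j H
  have hL1 := q.Lp (n + 1)
  have hmax : 0 ≤ max (zz C x n t - 8952 / 10000) 0 := le_max_right _ _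
  have e1 : L (n + 2 + j) / lam = L (n + 1 + j) := by
    rw [Lprev g, mul_div_cancel_left₀ _ hl.ne']
  rw [e1]
  rcases j with _ | i
  · have h2 := U2_le g p
    rw [add_zero, add_zero] at *
    have h3 : 10011 / 10000 * zz C x n t - 9 / 10 + 2 / 10 ^ 6 ≤
        zz C x n t * max (zz C x n t - 8952 / 10000) 0 := by
      rcases le_total (zz C x n t) (8952 / 10000) with h | h
      · have : 0 ≤ zz C x n t * max (zz C x n t - 8952 / 10000) 0 := by positivity
        linarith
      · rw [max_eq_left (by linarith)]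
        nlinarith [sq_nonneg (zz C x n t - 94815 / 100000)]
    have h4 : L (n + 1) * (10011 / 10000 * zz C x n t - 9 / 10 + 2 / 10 ^ 6) ≤
        L (n + 1) * (zz C x n t * max (zz C x n t - 8952 / 10000) 0) := by gcongr
    linarith
  · have h2 := Uj1_le g p i H
    have hL := q.Lp (n + 1 + (i + 1))
    have h3 : 0 ≤ L (n + 1) * (zz C x n t * max (zz C x n t - 8952 / 10000) 0) := by positivity
    linarith

end lev

end Pool.Agent.Y363.EP
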